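import Mathlib

/-!
# A hyperbolic (4,6)-distribution germ with Reeb directions which is not flat

We work on `ℝ⁶` with coordinates `(x₁, y₁, z₁, x₂, y₂, z₂) = (v 0, v 1, v 2, v 3, v 4, v 5)`.
The germ at `0` of
`ker (dz₁ - y₁ dx₁ - y₂ dx₂) ∩ ker (dz₂ - (y₁²/2) dx₁ - y₂ dx₂)`
is hyperbolic and admits Reeb directions (`Z₁ = ∂_{z₁}`, `Z₂ = ∂_{z₂}`), but it is not
diffeomorphic to the flat hyperbolic germ.
-/

open Filter Topology ContDiff

namespace Pool.Agent.Results.MP_08c0df_gt.NonFlatReebGerm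

/-- `ℝ⁶`, with coordinates `(x₁, y₁, z₁, x₂, y₂, z₂) = (v 0, v 1, v 2, v 3, v 4, v 5)`. -/
abbrev E : Type := Fin 6 → ℝ

/-- The exterior derivative `dλ (u, v)` at `x` of a differential 1-form `λ` on `ℝ⁶`. -/
noncomputable def extd (lam : E → E →L[ℝ] ℝ) (x u v : E) : ℝ :=
  fderiv ℝ lam x u v - fderiv ℝ lam x v u

/-- For vector fields `e₀, …, e₃` and a covector `ψ`, the Pfaffian
`w₀₁ w₂₃ - w₀₂ w₁₃ + w₀₃ w₁₂` of the matrix `w i j = ψ ([e i, e j] (x))`.  If the `e i` form a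
frame of a distribution `D` and `ψ` annihilates `D x` this is half of the value of
`(ψ ∘ L_x) ∧ (ψ ∘ L_x)` at `(e₀, …, e₃)`, where `L` is the curvature tensor of `D`. -/
noncomputable def bracketPfaffian (e : Fin 4 → E → E) (ψ : E →L[ℝ] ℝ) (x : E) : ℝ :=
  ψ (VectorField.lieBracket ℝ (e 0) (e 1) x) * ψ (VectorField.lieBracket ℝ (e 2) (e 3) x)
    - ψ (VectorField.lieBracket ℝ (e 0) (e 2) x) * ψ (VectorField.lieBracket ℝ (e 1) (e 3) x)
    + ψ (VectorField.lieBracket ℝ (e 0) (e 3) x) * ψ (VectorField.lieBracket ℝ (e 1) (e 2) x)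

/-- `D` is near `p` a smooth distribution of rank `4` which is hyperbolic: near `p` there is a
smooth frame `e₀, …, e₃` of `D`, and for `x` near `p` the quadratic form
`ψ ↦ (ψ ∘ L_x) ∧ (ψ ∘ L_x)` on the plane of covectors annihilating `D x` takes both positive
and negative values, i.e. it is nondegenerate and indefinite. -/
def IsHyperbolicGerm (D : E → Submodule ℝ E) (p : E) : Prop :=
  ∃ U : Set E, IsOpen U ∧ p ∈ U ∧ ∃ e : Fin 4 → E → E, (∀ i, ContDiffOn ℝ ∞ (e i) U) ∧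
    ∀ x ∈ U, LinearIndependent ℝ (fun i => e i x) ∧
      D x = Submodule.span ℝ (Set.range fun i => e i x) ∧
      (∃ ψ : E →L[ℝ] ℝ, (∀ v ∈ D x, ψ v = 0) ∧ 0 < bracketPfaffian e ψ x) ∧
      (∃ ψ : E →L[ℝ] ℝ, (∀ v ∈ D x, ψ v = 0) ∧ bracketPfaffian e ψ x < 0)

/-- `D` admits Reeb directions near `p`: near `p` there are smooth 1-forms `λ₀, λ₁` with
`D = ker λ₀ ∩ ker λ₁` and smooth vector fields `Z₀, Z₁` such that
(i) `T = D ⊕ ⟨Z₀, Z₁⟩`, (ii) `λ i (Z j) = δ i j`, (iii) `ι_{Z i} dλ j` vanishes on `D` for all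
`i, j`, (iv) `[Z₀, Z₁] = 0`. -/
def AdmitsReebDirections (D : E → Submodule ℝ E) (p : E) : Prop :=
  ∃ U : Set E, IsOpen U ∧ p ∈ U ∧ ∃ (lam : Fin 2 → E → E →L[ℝ] ℝ) (Z : Fin 2 → E → E),
    (∀ i, ContDiffOn ℝ ∞ (lam i) U) ∧ (∀ i, ContDiffOn ℝ ∞ (Z i) U) ∧
    ∀ x ∈ U, (∀ v, v ∈ D x ↔ lam 0 x v = 0 ∧ lam 1 x v = 0) ∧
      IsCompl (D x) (Submodule.span ℝ {Z 0 x, Z 1 x}) ∧
      (∀ i j, lam i x (Z j x) = if i = j then 1 else 0) ∧
      (∀ i j, ∀ v ∈ D x, extd (lam j) x (Z i x) v = 0) ∧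
      VectorField.lieBracket ℝ (Z 0) (Z 1) x = 0

/-- The germ of `D` at `p` and the germ of `D'` at `p'` are diffeomorphic: a local
diffeomorphism `φ` (smooth with smooth inverse) from a neighbourhood of `p` to a neighbourhood of
`p'` with `φ p = p'` carries `D` to `D'`. -/
def GermDiffeomorphic (D : E → Submodule ℝ E) (p : E) (D' : E → Submodule ℝ E) (p' : E) : Prop :=
  ∃ φ : OpenPartialHomeomorph E E, p ∈ φ.source ∧ φ p = p' ∧
    ContDiffOn ℝ ∞ φ φ.source ∧ ContDiffOn ℝ ∞ φ.symm φ.target ∧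
    ∀ x ∈ φ.source, (D x).map (fderiv ℝ φ x : E →ₗ[ℝ] E) = D' (φ x)

/-- The 1-form `dz₁ - y₁ dx₁`. -/
noncomputable def contact1 (x : E) : E →L[ℝ] ℝ :=
  ContinuousLinearMap.proj (R := ℝ) (φ := fun _ : Fin 6 => ℝ) 2
    - x 1 • ContinuousLinearMap.proj (R := ℝ) (φ := fun _ : Fin 6 => ℝ) 0

/-- The 1-form `dz₂ - y₂ dx₂`. -/
noncomputable def contact2 (x : E) : E →L[ℝ] ℝ :=
  ContinuousLinearMap.proj (R := ℝ) (φ := fun _ : Fin 6 => ℝ) 5
    - x 4 • ContinuousLinearMap.proj (R := ℝ) (φ := fun _ : Fin 6 => ℝ) 3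

/-- The flat hyperbolic distribution `ker (dz₁ - y₁ dx₁) ∩ ker (dz₂ - y₂ dx₂)` on `ℝ⁶`. -/
noncomputable def flatDistribution (x : E) : Submodule ℝ E :=
  LinearMap.ker (contact1 x : E →ₗ[ℝ] ℝ) ⊓ LinearMap.ker (contact2 x : E →ₗ[ℝ] ℝ)

lemma contact1_apply (x v : E) : contact1 x v = v 2 - x 1 * v 0 := by
  simp [contact1]

lemma contact2_apply (x v : E) : contact2 x v = v 5 - x 4 * v 3 := by
  simp [contact2]

lemma mem_flat (x v : E) :
    v ∈ flatDistribution x ↔ v 2 - x 1 * v 0 = 0 ∧ v 5 - x 4 * v 3 = 0 := by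
  simp [flatDistribution, contact1_apply, contact2_apply, LinearMap.mem_ker]

/-- The 1-form `dz₁ - y₁ dx₁ - y₂ dx₂`. -/
noncomputable def lamA (x : E) : E →L[ℝ] ℝ :=
  ContinuousLinearMap.proj (R := ℝ) (φ := fun _ : Fin 6 => ℝ) 2
    - x 1 • ContinuousLinearMap.proj (R := ℝ) (φ := fun _ : Fin 6 => ℝ) 0
    - x 4 • ContinuousLinearMap.proj (R := ℝ) (φ := fun _ : Fin 6 => ℝ) 3

/-- The 1-form `dz₂ - (y₁²/2) dx₁ - y₂ dx₂`. -/
noncomputable def lamB (x : E) : E →L[ℝ] ℝ :=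
  ContinuousLinearMap.proj (R := ℝ) (φ := fun _ : Fin 6 => ℝ) 5
    - ((x 1) ^ 2 / 2) • ContinuousLinearMap.proj (R := ℝ) (φ := fun _ : Fin 6 => ℝ) 0
    - x 4 • ContinuousLinearMap.proj (R := ℝ) (φ := fun _ : Fin 6 => ℝ) 3

/-- The counterexample `ker (dz₁ - y₁ dx₁ - y₂ dx₂) ∩ ker (dz₂ - (y₁²/2) dx₁ - y₂ dx₂)`. -/
noncomputable def exD (x : E) : Submodule ℝ E :=
  LinearMap.ker (lamA x : E →ₗ[ℝ] ℝ) ⊓ LinearMap.ker (lamB x : E →ₗ[ℝ] ℝ)

lemma lamA_apply (x v : E) : lamA x v = v 2 - x 1 * v 0 - x 4 * v 3 := by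
  simp [lamA]

lemma lamB_apply (x v : E) : lamB x v = v 5 - (x 1) ^ 2 / 2 * v 0 - x 4 * v 3 := by
  simp [lamB]

lemma mem_exD (x v : E) :
    v ∈ exD x ↔ v 2 - x 1 * v 0 - x 4 * v 3 = 0 ∧ v 5 - (x 1) ^ 2 / 2 * v 0 - x 4 * v 3 = 0 := by
  simp [exD, lamA_apply, lamB_apply, LinearMap.mem_ker]

/-- The frame of the counterexample. -/
noncomputable def fr : Fin 4 → E → E
  | 0 => fun x => ![1, 0, x 1, 0, 0, (x 1) ^ 2 / 2]
  | 1 => fun _ => ![0, 1, 0, 0, 0, 0]
  | 2 => fun x => ![0, 0, x 4, 1, 0, x 4]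
  | 3 => fun _ => ![0, 0, 0, 0, 1, 0]

/-- derivative of the frame field `fr 0`. -/
noncomputable def dfr0 (x : E) : E →L[ℝ] E :=
  ContinuousLinearMap.pi ![0, 0, ContinuousLinearMap.proj (R := ℝ) (φ := fun _ : Fin 6 => ℝ) 1, 0,
    0, x 1 • ContinuousLinearMap.proj (R := ℝ) (φ := fun _ : Fin 6 => ℝ) 1]

/-- derivative of the frame field `fr 2`. -/
noncomputable def dfr2 : E →L[ℝ] E :=
  ContinuousLinearMap.pi ![0, 0, ContinuousLinearMap.proj (R := ℝ) (φ := fun _ : Fin 6 => ℝ) 4, 0,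
    0, ContinuousLinearMap.proj (R := ℝ) (φ := fun _ : Fin 6 => ℝ) 4]

lemma hasFDerivAt_coord (k : Fin 6) (x : E) :
    HasFDerivAt (fun y : E => y k)
      (ContinuousLinearMap.proj (R := ℝ) (φ := fun _ : Fin 6 => ℝ) k) x :=
  (ContinuousLinearMap.proj (R := ℝ) (φ := fun _ : Fin 6 => ℝ) k).hasFDerivAt

lemma hasFDerivAt_fr0 (x : E) : HasFDerivAt (fr 0) (dfr0 x) x := by
  rw [hasFDerivAt_pi']
  intro i
  fin_cases i
  · simpa [fr, dfr0] using hasFDerivAt_const (1 : ℝ) x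
  · simpa [fr, dfr0] using hasFDerivAt_const (0 : ℝ) x
  · simpa [fr, dfr0] using hasFDerivAt_coord 1 x
  · simpa [fr, dfr0] using hasFDerivAt_const (0 : ℝ) x
  · simpa [fr, dfr0] using hasFDerivAt_const (0 : ℝ) x
  · have h := ((hasFDerivAt_coord 1 x).pow 2).const_mul (1 / 2 : ℝ)
    have h2 : (fun y : E => (1 / 2 : ℝ) * (y 1) ^ 2) = fun y : E => fr 0 y 5 := by
      ext y
      simp [fr]
      ring
    rw [h2] at h
    refine h.congr_fderiv ?_
    ext v
    simp [dfr0]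
    ring

lemma hasFDerivAt_fr2 (x : E) : HasFDerivAt (fr 2) dfr2 x := by
  rw [hasFDerivAt_pi']
  intro i
  fin_cases i
  · simpa [fr, dfr2] using hasFDerivAt_const (0 : ℝ) x
  · simpa [fr, dfr2] using hasFDerivAt_const (0 : ℝ) x
  · simpa [fr, dfr2] using hasFDerivAt_coord 4 x
  · simpa [fr, dfr2] using hasFDerivAt_const (1 : ℝ) x
  · simpa [fr, dfr2] using hasFDerivAt_const (0 : ℝ) x
  · simpa [fr, dfr2] using hasFDerivAt_coord 4 x

lemma hasFDerivAt_fr1 (x : E) : HasFDerivAt (fr 1) (0 : E →L[ℝ] E) x :=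
  hasFDerivAt_const _ x

lemma hasFDerivAt_fr3 (x : E) : HasFDerivAt (fr 3) (0 : E →L[ℝ] E) x :=
  hasFDerivAt_const _ x

/-- Second derivatives: a 1-form `dW - Y dX` has exterior derivative `dX ∧ dY`. -/
lemma extd_contact {X Y W : E → ℝ} {x : E} (hX : ContDiffAt ℝ 2 X x) (hY : ContDiffAt ℝ 2 Y x)
    (hW : ContDiffAt ℝ 2 W x) (u v : E) :
    extd (fun y => fderiv ℝ W y - Y y • fderiv ℝ X y) x u v =
      fderiv ℝ X x u * fderiv ℝ Y x v - fderiv ℝ X x v * fderiv ℝ Y x u := by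
  have hW1 : DifferentiableAt ℝ (fderiv ℝ W) x :=
    (hW.fderiv_right (m := 1) le_rfl).differentiableAt (by norm_num)
  have hX1 : DifferentiableAt ℝ (fderiv ℝ X) x :=
    (hX.fderiv_right (m := 1) le_rfl).differentiableAt (by norm_num)
  have hY1 : DifferentiableAt ℝ Y x := hY.differentiableAt (by norm_num)
  have hd : fderiv ℝ (fun y => fderiv ℝ W y - Y y • fderiv ℝ X y) x =
      fderiv ℝ (fderiv ℝ W) x - (Y x • fderiv ℝ (fderiv ℝ X) x
        + (fderiv ℝ Y x).smulRight (fderiv ℝ X x)) := by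
    exact (hW1.hasFDerivAt.sub (hY1.hasFDerivAt.smul hX1.hasFDerivAt)).fderiv
  have sW : ∀ u v, fderiv ℝ (fderiv ℝ W) x u v = fderiv ℝ (fderiv ℝ W) x v u :=
    fun u v => (hW.isSymmSndFDerivAt (by simp)) u v
  have sX : ∀ u v, fderiv ℝ (fderiv ℝ X) x u v = fderiv ℝ (fderiv ℝ X) x v u :=
    fun u v => (hX.isSymmSndFDerivAt (by simp)) u v
  unfold extd
  rw [hd]
  simp only [sub_apply, add_apply, smul_apply, ContinuousLinearMap.smulRight_apply, smul_eq_mul]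
  rw [sW u v, sX u v]
  ring

/-- If `α y (V y) = 0` for `y` near `x`, then `(∂_w α)(V x) = - α x (∂_w V)`. -/
lemma fderiv_apply_of_zero {α : E → E →L[ℝ] ℝ} {V : E → E} {V' : E →L[ℝ] E} {x : E}
    (hα : DifferentiableAt ℝ α x) (hV : HasFDerivAt V V' x)
    (h0 : ∀ᶠ y in 𝓝 x, α y (V y) = 0) (w : E) :
    fderiv ℝ α x w (V x) = - α x (V' w) := by
  have h1 : HasFDerivAt (fun y => α y (V y)) _ x := hα.hasFDerivAt.clm_apply hV
  have h2 : HasFDerivAt (fun y => α y (V y)) (0 : E →L[ℝ] ℝ) x := by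
    refine (hasFDerivAt_const (0 : ℝ) x).congr_of_eventuallyEq ?_
    filter_upwards [h0] with y hy
    exact hy
  have h3 := h1.unique h2
  have h4 : (α x).comp V' w + (fderiv ℝ α x).flip (V x) w = 0 := by
    rw [← add_apply, h3]
    rfl
  simp only [ContinuousLinearMap.comp_apply, ContinuousLinearMap.flip_apply] at h4
  linarith

/-- The vector `∂_{z₁}`. -/
noncomputable def Z1 : E := ![0, 0, 1, 0, 0, 0]

/-- The vector `∂_{z₂}`. -/
noncomputable def Z2 : E := ![0, 0, 0, 0, 0, 1]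

lemma fr_mem (i : Fin 4) (x : E) : fr i x ∈ exD x := by
  rw [mem_exD]
  fin_cases i <;> simp [fr]

/-- The 1-form `dW - Y dX`. -/
noncomputable def ctForm (X Y W : E → ℝ) (y : E) : E →L[ℝ] ℝ := fderiv ℝ W y - Y y • fderiv ℝ X y

lemma differentiableAt_ctForm {X Y W : E → ℝ} {x : E} (hX : ContDiffAt ℝ 2 X x)
    (hY : ContDiffAt ℝ 2 Y x) (hW : ContDiffAt ℝ 2 W x) :
    DifferentiableAt ℝ (ctForm X Y W) x := by
  have hW1 : DifferentiableAt ℝ (fderiv ℝ W) x :=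
    (hW.fderiv_right (m := 1) le_rfl).differentiableAt (by norm_num)
  have hX1 : DifferentiableAt ℝ (fderiv ℝ X) x :=
    (hX.fderiv_right (m := 1) le_rfl).differentiableAt (by norm_num)
  have hY1 : DifferentiableAt ℝ Y x := hY.differentiableAt (by norm_num)
  exact hW1.sub (hY1.smul hX1)

/-- The Plücker relation for the exterior derivative of `dW - Y dX`. -/
lemma pluecker {X Y W : E → ℝ} {x : E} (hX : ContDiffAt ℝ 2 X x) (hY : ContDiffAt ℝ 2 Y x)
    (hW : ContDiffAt ℝ 2 W x) (u v w t : E) :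
    extd (ctForm X Y W) x u v * extd (ctForm X Y W) x w t
      - extd (ctForm X Y W) x u w * extd (ctForm X Y W) x v t
      + extd (ctForm X Y W) x u t * extd (ctForm X Y W) x v w = 0 := by
  have h := extd_contact hX hY hW
  have h' : ∀ u v, extd (ctForm X Y W) x u v =
      fderiv ℝ X x u * fderiv ℝ Y x v - fderiv ℝ X x v * fderiv ℝ Y x u := h
  simp only [h']
  ring

section

variable {X Y W : E → ℝ} {x : E}

/-- The values of `d(dW - Y dX)` on the frame of the counterexample. -/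
lemma extd_frame (hX : ContDiffAt ℝ 2 X x) (hY : ContDiffAt ℝ 2 Y x)
    (hW : ContDiffAt ℝ 2 W x)
    (h0 : ∀ᶠ y in 𝓝 x, ∀ v ∈ exD y, ctForm X Y W y v = 0) :
    extd (ctForm X Y W) x (fr 0 x) (fr 1 x) = ctForm X Y W x Z1 + x 1 * ctForm X Y W x Z2 ∧
    extd (ctForm X Y W) x (fr 2 x) (fr 3 x) = ctForm X Y W x Z1 + ctForm X Y W x Z2 ∧
    extd (ctForm X Y W) x (fr 0 x) (fr 2 x) = 0 ∧
    extd (ctForm X Y W) x (fr 0 x) (fr 3 x) = 0 ∧
    extd (ctForm X Y W) x (fr 1 x) (fr 2 x) = 0 ∧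
    extd (ctForm X Y W) x (fr 1 x) (fr 3 x) = 0 ∧
    ∀ u, fderiv ℝ (ctForm X Y W) x u (fr 1 x) = 0 := by
  have hα := differentiableAt_ctForm hX hY hW
  have hz : ∀ i : Fin 4, ∀ᶠ y in 𝓝 x, ctForm X Y W y (fr i y) = 0 := by
    intro i
    filter_upwards [h0] with y hy
    exact hy _ (fr_mem i y)
  have d0 : ∀ w, fderiv ℝ (ctForm X Y W) x w (fr 0 x) = - ctForm X Y W x (dfr0 x w) :=
    fderiv_apply_of_zero hα (hasFDerivAt_fr0 x) (hz 0)
  have d1 : ∀ w, fderiv ℝ (ctForm X Y W) x w (fr 1 x) = 0 := by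
    intro w
    have := fderiv_apply_of_zero hα (hasFDerivAt_fr1 x) (hz 1) w
    simpa using this
  have d2 : ∀ w, fderiv ℝ (ctForm X Y W) x w (fr 2 x) = - ctForm X Y W x (dfr2 w) :=
    fderiv_apply_of_zero hα (hasFDerivAt_fr2 x) (hz 2)
  have d3 : ∀ w, fderiv ℝ (ctForm X Y W) x w (fr 3 x) = 0 := by
    intro w
    have := fderiv_apply_of_zero hα (hasFDerivAt_fr3 x) (hz 3) w
    simpa using this
  have e01 : dfr0 x (fr 1 x) = Z1 + x 1 • Z2 := by
    ext i
    fin_cases i <;> simp [dfr0, fr, Z1, Z2]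
  have e23 : dfr2 (fr 3 x) = Z1 + Z2 := by
    ext i
    fin_cases i <;> simp [dfr2, fr, Z1, Z2]
  have e02 : dfr0 x (fr 2 x) = 0 := by
    ext i
    fin_cases i <;> simp [dfr0, fr]
  have e03 : dfr0 x (fr 3 x) = 0 := by
    ext i
    fin_cases i <;> simp [dfr0, fr]
  have e20 : dfr2 (fr 0 x) = 0 := by
    ext i
    fin_cases i <;> simp [dfr2, fr]
  have e21 : dfr2 (fr 1 x) = 0 := by
    ext i
    fin_cases i <;> simp [dfr2, fr]
  refine ⟨?_, ?_, ?_, ?_, ?_, ?_, d1⟩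
  · unfold extd
    rw [d1, d0, e01, map_add, map_smul, smul_eq_mul]
    ring
  · unfold extd
    rw [d3, d2, e23, map_add]
    ring
  · unfold extd
    rw [d2, d0, e20, e02, map_zero]
    ring
  · unfold extd
    rw [d3, d0, e03, map_zero]
    ring
  · unfold extd
    rw [d2, d1, e21, map_zero]
    ring
  · unfold extd
    rw [d3, d1]
    ring

lemma product_zero (hX : ContDiffAt ℝ 2 X x) (hY : ContDiffAt ℝ 2 Y x)
    (hW : ContDiffAt ℝ 2 W x)
    (h0 : ∀ᶠ y in 𝓝 x, ∀ v ∈ exD y, ctForm X Y W y v = 0) :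
    (ctForm X Y W x Z1 + x 1 * ctForm X Y W x Z2) *
      (ctForm X Y W x Z1 + ctForm X Y W x Z2) = 0 := by
  obtain ⟨h01, h23, h02, h03, h12, h13, -⟩ := extd_frame hX hY hW h0
  have hp := pluecker hX hY hW (fr 0 x) (fr 1 x) (fr 2 x) (fr 3 x)
  rw [h01, h23, h02, h03] at hp
  linarith

/-- The main computation: the coefficient of `λ₁` and `λ₂` in a form `dW - Y dX` which
annihilates the distribution cannot be `(0, b)` with `b ≠ 0` at the origin. -/
lemma key (hX : ∀ᶠ y in 𝓝 (0 : E), ContDiffAt ℝ 2 X y) (hY : ∀ᶠ y in 𝓝 (0 : E), ContDiffAt ℝ 2 Y y)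
    (hW : ∀ᶠ y in 𝓝 (0 : E), ContDiffAt ℝ 2 W y)
    (h0 : ∀ᶠ y in 𝓝 (0 : E), ∀ v ∈ exD y, ctForm X Y W y v = 0)
    (ha : ctForm X Y W 0 Z1 = 0) : ctForm X Y W 0 Z2 = 0 := by
  by_contra hb
  have hα : DifferentiableAt ℝ (ctForm X Y W) 0 :=
    differentiableAt_ctForm hX.self_of_nhds hY.self_of_nhds hW.self_of_nhds
  have hprod : ∀ᶠ y in 𝓝 (0 : E), (ctForm X Y W y Z1 + y 1 * ctForm X Y W y Z2) *
      (ctForm X Y W y Z1 + ctForm X Y W y Z2) = 0 := by
    filter_upwards [hX, hY, hW, h0.eventually_nhds] with y h1 h2 h3 h4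
    exact product_zero h1 h2 h3 h4
  have hne : ∀ᶠ y in 𝓝 (0 : E), ctForm X Y W y Z1 + ctForm X Y W y Z2 ≠ 0 := by
    have hc : ContinuousAt (fun y => ctForm X Y W y Z1 + ctForm X Y W y Z2) 0 := by
      have h1 : ContinuousAt (fun y => ctForm X Y W y Z1) 0 :=
        (hα.clm_apply (differentiableAt_const Z1)).continuousAt
      have h2 : ContinuousAt (fun y => ctForm X Y W y Z2) 0 :=
        (hα.clm_apply (differentiableAt_const Z2)).continuousAt
      exact h1.add h2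
    refine hc.eventually_ne ?_
    rw [ha, zero_add]
    exact hb
  have heq : ∀ᶠ y in 𝓝 (0 : E), ctForm X Y W y Z1 = - (y 1 * ctForm X Y W y Z2) := by
    filter_upwards [hprod, hne] with y h1 h2
    rcases mul_eq_zero.1 h1 with h3 | h3
    · linarith
    · exact absurd h3 h2
  -- the derivative of `a = α(Z₁)` in direction `∂_{y₁}`
  have hda : fderiv ℝ (ctForm X Y W) 0 (fr 1 0) Z1 = - ctForm X Y W 0 Z2 := by
    have h1 : HasFDerivAt (fun y => ctForm X Y W y Z1) _ 0 :=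
      hα.hasFDerivAt.clm_apply (hasFDerivAt_const Z1 (0 : E))
    have h2 : HasFDerivAt (fun y => ctForm X Y W y Z2) _ 0 :=
      hα.hasFDerivAt.clm_apply (hasFDerivAt_const Z2 (0 : E))
    have h3 := ((hasFDerivAt_coord 1 (0 : E)).mul h2).neg
    have h4 := h3.congr_of_eventuallyEq (f₁ := fun y => ctForm X Y W y Z1) (by
      filter_upwards [heq] with y hy
      simpa using hy)
    have h5 := congrArg (fun L : E →L[ℝ] ℝ => L (fr 1 0)) (h1.unique h4)
    simpa [fr] using h5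
  obtain ⟨-, h23, -, -, h12, h13, h1⟩ :=
    extd_frame hX.self_of_nhds hY.self_of_nhds hW.self_of_nhds h0
  have hp := pluecker hX.self_of_nhds hY.self_of_nhds hW.self_of_nhds (fr 2 0) (fr 3 0) (fr 1 0) Z1
  have h21 : extd (ctForm X Y W) 0 (fr 2 0) (fr 1 0) = 0 := by
    have : extd (ctForm X Y W) 0 (fr 2 0) (fr 1 0) = - extd (ctForm X Y W) 0 (fr 1 0) (fr 2 0) := by
      unfold extd; ring
    rw [this, h12, neg_zero]
  have h31 : extd (ctForm X Y W) 0 (fr 3 0) (fr 1 0) = 0 := by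
    have : extd (ctForm X Y W) 0 (fr 3 0) (fr 1 0) = - extd (ctForm X Y W) 0 (fr 1 0) (fr 3 0) := by
      unfold extd; ring
    rw [this, h13, neg_zero]
  have h1Z : extd (ctForm X Y W) 0 (fr 1 0) Z1 = - ctForm X Y W 0 Z2 := by
    unfold extd
    rw [hda, h1, sub_zero]
  rw [h23, h21, h31, h1Z, ha] at hp
  apply hb
  have : ctForm X Y W 0 Z2 * ctForm X Y W 0 Z2 = 0 := by linarith
  exact mul_self_eq_zero.1 this

end

/-! ### The counterexample is hyperbolic -/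

lemma lieBracket_eq {V W : E → E} {V' W' : E →L[ℝ] E} {x : E} (hV : HasFDerivAt V V' x)
    (hW : HasFDerivAt W W' x) : VectorField.lieBracket ℝ V W x = W' (V x) - V' (W x) := by
  simp [VectorField.lieBracket, hV.fderiv, hW.fderiv]

lemma contDiff_coord (k : Fin 6) : ContDiff ℝ ∞ (fun y : E => y k) :=
  (ContinuousLinearMap.proj (R := ℝ) (φ := fun _ : Fin 6 => ℝ) k).contDiff

lemma contDiff_fr (i : Fin 4) : ContDiff ℝ ∞ (fr i) := by
  rw [contDiff_pi]
  intro k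
  fin_cases i <;> fin_cases k <;> simp [fr] <;>
    first
    | exact contDiff_const
    | exact contDiff_coord _
    | exact ((contDiff_coord _).pow 2).div_const 2

lemma br01 (x : E) : VectorField.lieBracket ℝ (fr 0) (fr 1) x = -(Z1 + x 1 • Z2) := by
  rw [lieBracket_eq (hasFDerivAt_fr0 x) (hasFDerivAt_fr1 x)]
  ext i
  fin_cases i <;> simp [dfr0, fr, Z1, Z2]

lemma br23 (x : E) : VectorField.lieBracket ℝ (fr 2) (fr 3) x = -(Z1 + Z2) := by
  rw [lieBracket_eq (hasFDerivAt_fr2 x) (hasFDerivAt_fr3 x)]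
  ext i
  fin_cases i <;> simp [dfr2, fr, Z1, Z2]

lemma br02 (x : E) : VectorField.lieBracket ℝ (fr 0) (fr 2) x = 0 := by
  rw [lieBracket_eq (hasFDerivAt_fr0 x) (hasFDerivAt_fr2 x)]
  ext i
  fin_cases i <;> simp [dfr0, dfr2, fr]

lemma br03 (x : E) : VectorField.lieBracket ℝ (fr 0) (fr 3) x = 0 := by
  rw [lieBracket_eq (hasFDerivAt_fr0 x) (hasFDerivAt_fr3 x)]
  ext i
  fin_cases i <;> simp [dfr0, fr]

lemma frame_indep (x : E) : LinearIndependent ℝ (fun i => fr i x) := by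
  rw [Fintype.linearIndependent_iff]
  intro g hg
  have h := fun k : Fin 6 => congrFun hg k
  have h0 := h 0
  have h1 := h 1
  have h3 := h 3
  have h4 := h 4
  simp [Fin.sum_univ_four, fr] at h0 h1 h3 h4
  intro i
  fin_cases i
  · exact h0
  · exact h1
  · exact h3
  · exact h4

lemma frame_span (x : E) : exD x = Submodule.span ℝ (Set.range fun i => fr i x) := by
  apply le_antisymm
  · intro v hv
    rw [mem_exD] at hv
    obtain ⟨h1, h2⟩ := hv
    have hv' : v = v 0 • fr 0 x + v 1 • fr 1 x + v 3 • fr 2 x + v 4 • fr 3 x := by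
      ext k
      fin_cases k <;> simp [fr] <;> linarith
    rw [hv']
    have hm : ∀ i, fr i x ∈ Submodule.span ℝ (Set.range fun i => fr i x) :=
      fun i => Submodule.subset_span ⟨i, rfl⟩
    exact Submodule.add_mem _ (Submodule.add_mem _ (Submodule.add_mem _
      (Submodule.smul_mem _ _ (hm 0)) (Submodule.smul_mem _ _ (hm 1)))
      (Submodule.smul_mem _ _ (hm 2))) (Submodule.smul_mem _ _ (hm 3))
  · rw [Submodule.span_le]
    rintro _ ⟨i, rfl⟩
    exact fr_mem i x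

lemma pfaffian_eq (ψ : E →L[ℝ] ℝ) (x : E) :
    bracketPfaffian fr ψ x = (ψ Z1 + x 1 * ψ Z2) * (ψ Z1 + ψ Z2) := by
  unfold bracketPfaffian
  rw [br01, br23, br02, br03]
  simp only [map_neg, map_add, map_smul, map_zero, smul_eq_mul]
  ring

lemma lamA_Z (x : E) : lamA x Z1 = 1 ∧ lamA x Z2 = 0 := by
  simp [lamA_apply, Z1, Z2]

lemma lamB_Z (x : E) : lamB x Z1 = 0 ∧ lamB x Z2 = 1 := by
  simp [lamB_apply, Z1, Z2]

lemma lamA_zero {x v : E} (hv : v ∈ exD x) : lamA x v = 0 := by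
  rw [mem_exD] at hv
  rw [lamA_apply]
  exact hv.1

lemma lamB_zero {x v : E} (hv : v ∈ exD x) : lamB x v = 0 := by
  rw [mem_exD] at hv
  rw [lamB_apply]
  exact hv.2

lemma exD_hyperbolic : IsHyperbolicGerm exD 0 := by
  refine ⟨{x | x 1 < 1}, ?_, ?_, fr, fun i => (contDiff_fr i).contDiffOn, ?_⟩
  · exact isOpen_lt (continuous_apply 1) continuous_const
  · simp
  · intro x hx
    have hx1 : x 1 < 1 := hx
    refine ⟨frame_indep x, frame_span x, ⟨lamA x, fun v hv => lamA_zero hv, ?_⟩,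
      ⟨(-(1 + x 1) / 2) • lamA x + lamB x, fun v hv => ?_, ?_⟩⟩
    · rw [pfaffian_eq, (lamA_Z x).1, (lamA_Z x).2]
      norm_num
    · simp [lamA_zero hv, lamB_zero hv]
    · rw [pfaffian_eq]
      simp only [add_apply, smul_apply, (lamA_Z x).1, (lamA_Z x).2, (lamB_Z x).1, (lamB_Z x).2,
        smul_eq_mul]
      have h : 0 < (1 - x 1) ^ 2 := by
        apply pow_pos
        linarith
      nlinarith

/-! ### The counterexample admits Reeb directions -/

lemma contDiff_lamA : ContDiff ℝ ∞ lamA := by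
  unfold lamA
  exact (contDiff_const.sub ((contDiff_coord 1).smul contDiff_const)).sub
    ((contDiff_coord 4).smul contDiff_const)

lemma contDiff_lamB : ContDiff ℝ ∞ lamB := by
  unfold lamB
  exact (contDiff_const.sub ((((contDiff_coord 1).pow 2).div_const 2).smul contDiff_const)).sub
    ((contDiff_coord 4).smul contDiff_const)

/-- the derivative of `lamA`. -/
lemma fderiv_lamA (x w v : E) : fderiv ℝ lamA x w v = - (w 1 * v 0) - w 4 * v 3 := by
  have h : HasFDerivAt lamA _ x :=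
    ((hasFDerivAt_const (ContinuousLinearMap.proj (R := ℝ) (φ := fun _ : Fin 6 => ℝ) 2) x).sub
      ((hasFDerivAt_coord 1 x).smul
        (hasFDerivAt_const (ContinuousLinearMap.proj (R := ℝ) (φ := fun _ : Fin 6 => ℝ) 0) x))).sub
      ((hasFDerivAt_coord 4 x).smul
        (hasFDerivAt_const (ContinuousLinearMap.proj (R := ℝ) (φ := fun _ : Fin 6 => ℝ) 3) x))
  rw [h.fderiv]
  simp

lemma fderiv_lamB (x w v : E) : fderiv ℝ lamB x w v = - (x 1 * w 1 * v 0) - w 4 * v 3 := by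
  have h1 : HasFDerivAt (fun y : E => (y 1) ^ 2 / 2)
      (x 1 • ContinuousLinearMap.proj (R := ℝ) (φ := fun _ : Fin 6 => ℝ) 1) x := by
    have h := ((hasFDerivAt_coord 1 x).pow 2).const_mul (1 / 2 : ℝ)
    have h2 : (fun y : E => (1 / 2 : ℝ) * (y 1) ^ 2) = fun y : E => (y 1) ^ 2 / 2 := by
      ext y
      ring
    rw [h2] at h
    refine h.congr_fderiv ?_
    ext v
    simp
    ring
  have h : HasFDerivAt lamB _ x :=
    ((hasFDerivAt_const (ContinuousLinearMap.proj (R := ℝ) (φ := fun _ : Fin 6 => ℝ) 5) x).sub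
      (h1.smul
        (hasFDerivAt_const (ContinuousLinearMap.proj (R := ℝ) (φ := fun _ : Fin 6 => ℝ) 0) x))).sub
      ((hasFDerivAt_coord 4 x).smul
        (hasFDerivAt_const (ContinuousLinearMap.proj (R := ℝ) (φ := fun _ : Fin 6 => ℝ) 3) x))
  rw [h.fderiv]
  simp

lemma exD_isCompl (x : E) : IsCompl (exD x) (Submodule.span ℝ {Z1, Z2}) := by
  constructor
  · rw [Submodule.disjoint_def]
    intro v hv hv2
    rw [Submodule.mem_span_pair] at hv2
    obtain ⟨a, b, rfl⟩ := hv2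
    have h1 := lamA_zero hv
    have h2 := lamB_zero hv
    simp only [map_add, map_smul, (lamA_Z x).1, (lamA_Z x).2, (lamB_Z x).1, (lamB_Z x).2,
      smul_eq_mul, mul_one, mul_zero, add_zero, zero_add] at h1 h2
    rw [h1, h2]
    simp
  · rw [codisjoint_iff, eq_top_iff]
    intro v _
    rw [Submodule.mem_sup]
    refine ⟨v - (lamA x v • Z1 + lamB x v • Z2), ?_, lamA x v • Z1 + lamB x v • Z2, ?_, by simp⟩
    · have hA : lamA x (v - (lamA x v • Z1 + lamB x v • Z2)) = 0 := by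
        simp only [map_sub, map_add, map_smul, (lamA_Z x).1, (lamA_Z x).2, smul_eq_mul]
        ring
      have hB : lamB x (v - (lamA x v • Z1 + lamB x v • Z2)) = 0 := by
        simp only [map_sub, map_add, map_smul, (lamB_Z x).1, (lamB_Z x).2, smul_eq_mul]
        ring
      exact ⟨hA, hB⟩
    · rw [Submodule.mem_span_pair]
      exact ⟨_, _, rfl⟩

lemma exD_reeb : AdmitsReebDirections exD 0 := by
  refine ⟨Set.univ, isOpen_univ, Set.mem_univ _, ![lamA, lamB], ![fun _ => Z1, fun _ => Z2],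
    ?_, ?_, ?_⟩
  · intro i
    fin_cases i
    · exact contDiff_lamA.contDiffOn
    · exact contDiff_lamB.contDiffOn
  · intro i
    fin_cases i
    · exact contDiffOn_const
    · exact contDiffOn_const
  · intro x _
    refine ⟨fun v => ?_, exD_isCompl x, ?_, ?_, ?_⟩
    · constructor
      · intro hv
        exact ⟨lamA_zero hv, lamB_zero hv⟩
      · rintro ⟨h1, h2⟩
        exact ⟨h1, h2⟩
    · intro i j
      fin_cases i <;> fin_cases j <;> simp [lamA_Z, lamB_Z]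
    · intro i j v _
      fin_cases i <;> fin_cases j <;> simp [extd, fderiv_lamA, fderiv_lamB, Z1, Z2]
    · have h : VectorField.lieBracket ℝ (fun _ : E => Z1) (fun _ : E => Z2) x = 0 := by
        rw [lieBracket_eq (hasFDerivAt_const Z1 x) (hasFDerivAt_const Z2 x)]
        simp
      exact h

/-! ### The counterexample is not flat -/

lemma not_flat : ¬ GermDiffeomorphic exD 0 flatDistribution 0 := by
  rintro ⟨φ, h0s, h00, hφ, hφs, hD⟩
  have hnhds : ∀ᶠ x in 𝓝 (0 : E), x ∈ φ.source := φ.open_source.mem_nhds h0s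
  -- smoothness of the components
  have hsm : ∀ k : Fin 6, ∀ᶠ y in 𝓝 (0 : E), ContDiffAt ℝ 2 (fun z => φ z k) y := by
    intro k
    filter_upwards [hnhds] with y hy
    have h1 : ContDiffAt ℝ ∞ φ y := hφ.contDiffAt (φ.open_source.mem_nhds hy)
    have h2 : ContDiffAt ℝ 2 φ y := h1.of_le (WithTop.coe_le_coe.2 le_top)
    exact (contDiffAt_pi.1 h2) k
  have hdiff : ∀ x ∈ φ.source, DifferentiableAt ℝ φ x := fun x hx =>
    (hφ.contDiffAt (φ.open_source.mem_nhds hx)).differentiableAt (by simp)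
  have hcomp : ∀ x ∈ φ.source, ∀ (k : Fin 6) (v : E),
      fderiv ℝ (fun z => φ z k) x v = fderiv ℝ φ x v k := by
    intro x hx k v
    have h1 : HasFDerivAt (fun z => φ z k) _ x := (hasFDerivAt_pi'.1 (hdiff x hx).hasFDerivAt) k
    rw [h1.fderiv]
    rfl
  -- the pulled back contact forms
  have hform1 : ∀ x ∈ φ.source, ∀ v, ctForm (fun z => φ z 0) (fun z => φ z 1) (fun z => φ z 2) x v =
      fderiv ℝ φ x v 2 - φ x 1 * fderiv ℝ φ x v 0 := by
    intro x hx v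
    simp only [ctForm, sub_apply, smul_apply, smul_eq_mul, hcomp x hx]
  have hform2 : ∀ x ∈ φ.source, ∀ v, ctForm (fun z => φ z 3) (fun z => φ z 4) (fun z => φ z 5) x v =
      fderiv ℝ φ x v 5 - φ x 4 * fderiv ℝ φ x v 3 := by
    intro x hx v
    simp only [ctForm, sub_apply, smul_apply, smul_eq_mul, hcomp x hx]
  have hmem : ∀ x ∈ φ.source, ∀ v ∈ exD x, fderiv ℝ φ x v ∈ flatDistribution (φ x) := by
    intro x hx v hv
    rw [← hD x hx]
    exact Submodule.mem_map_of_mem hv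
  have hz1 : ∀ᶠ y in 𝓝 (0 : E), ∀ v ∈ exD y,
      ctForm (fun z => φ z 0) (fun z => φ z 1) (fun z => φ z 2) y v = 0 := by
    filter_upwards [hnhds] with y hy v hv
    rw [hform1 y hy]
    exact ((mem_flat _ _).1 (hmem y hy v hv)).1
  have hz2 : ∀ᶠ y in 𝓝 (0 : E), ∀ v ∈ exD y,
      ctForm (fun z => φ z 3) (fun z => φ z 4) (fun z => φ z 5) y v = 0 := by
    filter_upwards [hnhds] with y hy v hv
    rw [hform2 y hy]
    exact ((mem_flat _ _).1 (hmem y hy v hv)).2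
  -- the derivative at `0` is invertible
  have hinv1 : ∀ v, fderiv ℝ φ.symm (φ 0) (fderiv ℝ φ 0 v) = v := by
    have h1 : HasFDerivAt (φ.symm ∘ φ) ((fderiv ℝ φ.symm (φ 0)).comp (fderiv ℝ φ 0)) 0 := by
      refine HasFDerivAt.comp 0 ?_ (hdiff 0 h0s).hasFDerivAt
      have ht : φ 0 ∈ φ.target := φ.map_source h0s
      exact ((hφs.contDiffAt (φ.open_target.mem_nhds ht)).differentiableAt (by simp)).hasFDerivAt
    have h2 : HasFDerivAt (φ.symm ∘ φ) (ContinuousLinearMap.id ℝ E) 0 := by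
      refine (hasFDerivAt_id (0 : E)).congr_of_eventuallyEq ?_
      filter_upwards [hnhds] with y hy
      exact φ.left_inv hy
    intro v
    have h3 := congrArg (fun L : E →L[ℝ] E => L v) (h1.unique h2)
    simpa using h3
  have hinv2 : ∀ w, fderiv ℝ φ 0 (fderiv ℝ φ.symm (φ 0) w) = w := by
    have ht : φ 0 ∈ φ.target := φ.map_source h0s
    have hl : φ.symm (φ 0) = 0 := φ.left_inv h0s
    have h1 : HasFDerivAt (φ ∘ φ.symm) ((fderiv ℝ φ 0).comp (fderiv ℝ φ.symm (φ 0))) (φ 0) := by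
      refine HasFDerivAt.comp (φ 0) ?_ ?_
      · rw [hl]
        exact (hdiff 0 h0s).hasFDerivAt
      · exact ((hφs.contDiffAt (φ.open_target.mem_nhds ht)).differentiableAt (by simp)).hasFDerivAt
    have h2 : HasFDerivAt (φ ∘ φ.symm) (ContinuousLinearMap.id ℝ E) (φ 0) := by
      refine (hasFDerivAt_id (φ 0)).congr_of_eventuallyEq ?_
      filter_upwards [φ.open_target.mem_nhds ht] with y hy
      exact φ.right_inv hy
    intro v
    have h3 := congrArg (fun L : E →L[ℝ] E => L v) (h1.unique h2)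
    simpa using h3
  have hdecomp : ∀ v : E, ∃ u ∈ exD 0, ∃ a b : ℝ, v = u + (a • Z1 + b • Z2) := by
    intro v
    have hv : v ∈ exD 0 ⊔ Submodule.span ℝ {Z1, Z2} := by
      rw [(exD_isCompl 0).sup_eq_top]
      trivial
    obtain ⟨u, hu, w, hw, rfl⟩ := Submodule.mem_sup.1 hv
    obtain ⟨a, b, rfl⟩ := Submodule.mem_span_pair.1 hw
    exact ⟨u, hu, a, b, rfl⟩
  -- a general consequence for one form
  have hgen : ∀ (X Y W : E → ℝ), (∀ᶠ y in 𝓝 (0 : E), ContDiffAt ℝ 2 X y) →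
      (∀ᶠ y in 𝓝 (0 : E), ContDiffAt ℝ 2 Y y) → (∀ᶠ y in 𝓝 (0 : E), ContDiffAt ℝ 2 W y) →
      (∀ᶠ y in 𝓝 (0 : E), ∀ v ∈ exD y, ctForm X Y W y v = 0) →
      (∃ v, ctForm X Y W 0 v ≠ 0) → ctForm X Y W 0 Z1 + ctForm X Y W 0 Z2 = 0 := by
    intro X Y W hX hY hW h0 hne
    have hp := product_zero hX.self_of_nhds hY.self_of_nhds hW.self_of_nhds h0
    simp only [Pi.zero_apply, zero_mul, add_zero] at hp
    rcases mul_eq_zero.1 hp with ha | hab
    · exfalso
      have hb := key hX hY hW h0 ha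
      obtain ⟨v, hv⟩ := hne
      apply hv
      obtain ⟨u, hu, a, b, rfl⟩ := hdecomp v
      rw [map_add, map_add, map_smul, map_smul, ha, hb, h0.self_of_nhds u hu]
      simp
    · exact hab
  have hne1 : ∃ v, ctForm (fun z => φ z 0) (fun z => φ z 1) (fun z => φ z 2) 0 v ≠ 0 := by
    refine ⟨fderiv ℝ φ.symm (φ 0) Z1, ?_⟩
    rw [hform1 0 h0s, hinv2]
    simp [Z1]
  have hne2 : ∃ v, ctForm (fun z => φ z 3) (fun z => φ z 4) (fun z => φ z 5) 0 v ≠ 0 := by
    refine ⟨fderiv ℝ φ.symm (φ 0) Z2, ?_⟩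
    rw [hform2 0 h0s, hinv2]
    simp [Z2]
  have hs1 := hgen _ _ _ (hsm 0) (hsm 1) (hsm 2) hz1 hne1
  have hs2 := hgen _ _ _ (hsm 3) (hsm 4) (hsm 5) hz2 hne2
  rw [← map_add, hform1 0 h0s] at hs1
  rw [← map_add, hform2 0 h0s] at hs2
  have hmemflat : fderiv ℝ φ 0 (Z1 + Z2) ∈ flatDistribution (φ 0) :=
    (mem_flat _ _).2 ⟨hs1, hs2⟩
  rw [← hD 0 h0s, Submodule.mem_map] at hmemflat
  obtain ⟨u, hu, huv⟩ := hmemflat
  have huv' : fderiv ℝ φ 0 u = fderiv ℝ φ 0 (Z1 + Z2) := huv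
  have hueq : u = Z1 + Z2 := by
    rw [← hinv1 u, huv', hinv1]
  have h1 := lamA_zero hu
  rw [hueq, map_add, (lamA_Z 0).1, (lamA_Z 0).2] at h1
  norm_num at h1

/-- **Negative answer to the question.**  There is a hyperbolic (4,6)-distribution germ (on `ℝ⁶`
at `0`) which admits Reeb directions and is not diffeomorphic to the flat hyperbolic germ. -/
theorem result : ∃ D : E → Submodule ℝ E, IsHyperbolicGerm D 0 ∧ AdmitsReebDirections D 0 ∧
    ¬ GermDiffeomorphic D 0 flatDistribution 0 :=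
  ⟨exD, exD_hyperbolic, exD_reeb, not_flat⟩

end Pool.Agent.Results.MP_08c0df_gt.NonFlatReebGerm
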